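import Pool.Agent.H31.DPD.Targets
import Pool.Agent.H42.LF.UM

/-!
Module UM of the project DPD: the limit mean.
-/

set_option autoImplicit false

open Finset Filter Topology

namespace Pool.Agent.H72.DPD

open Pool.Agent.H31.DPD
open Pool.Agent.H91.LF (lz Bdd Mean sqw)
open Pool.Agent.H42.LF (hyp_le exists_lim)

theorem avc_add {d : ℕ} (x y : ℕ) (f g : (Fin (d + 2) → ℤ) → ℝ) :
    avc d x y (fun ω => f ω + g ω) = avc d x y f + avc d x y g := by
  unfold avc
  rw [← add_div]
  congr 1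
  rw [← Finset.sum_add_distrib]
  refine Finset.sum_congr rfl fun M _ => ?_
  rw [← mul_add, ← add_div]
  congr 2
  rw [← Finset.sum_add_distrib]

theorem avc_smul {d : ℕ} (x y : ℕ) (c : ℝ) (f : (Fin (d + 2) → ℤ) → ℝ) :
    avc d x y (fun ω => c * f ω) = c * avc d x y f := by
  unfold avc
  rw [← mul_div_assoc]
  congr 1
  rw [Finset.mul_sum]
  refine Finset.sum_congr rfl fun M _ => ?_
  rw [mul_left_comm]
  congr 1
  rw [← mul_div_assoc]
  congr 1
  rw [Finset.mul_sum]

theorem avc_nonneg {d : ℕ} (x y : ℕ) (f : (Fin (d + 2) → ℤ) → ℝ) (hf : ∀ ω, 0 ≤ f ω) :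
    0 ≤ avc d x y f := by
  unfold avc
  refine div_nonneg ?_ ?_
  · refine Finset.sum_nonneg fun M _ => mul_nonneg (by positivity) ?_
    exact div_nonneg (Finset.sum_nonneg fun ω _ => hf ω) (by positivity)
  · exact Finset.sum_nonneg fun M _ => by positivity

theorem avc_one_eq {d : ℕ} (hOB : P_OB) (x y : ℕ) (hx : 0 < x) : avc d x y (fun _ => 1) =
    (∑ M ∈ Finset.Icc x y, (1 / (M : ℝ))) / ∑ M ∈ Finset.Icc x y, (1 / (M : ℝ)) := by
  obtain ⟨c, hc, hcard⟩ := (hOB d).1
  unfold avc
  congr 1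
  refine Finset.sum_congr rfl fun M hM => ?_
  have hM1 : 0 < M := lt_of_lt_of_le hx (Finset.mem_Icc.1 hM).1
  have hM2 : (0 : ℝ) < M := by exact_mod_cast hM1
  have h1 : (0 : ℝ) < ((Oc d M).card : ℝ) := lt_of_lt_of_le (by positivity) (hcard M hM1).1
  rw [Finset.sum_const, nsmul_eq_mul, mul_one, div_self h1.ne', mul_one]

theorem avc_one_le {d : ℕ} (hOB : P_OB) (x y : ℕ) (hx : 0 < x) : avc d x y (fun _ => 1) ≤ 1 := by
  rw [avc_one_eq hOB x y hx]
  exact div_self_le_one _

theorem avc_mono {d : ℕ} (x y : ℕ) (f g : (Fin (d + 2) → ℤ) → ℝ) (h : ∀ ω, f ω ≤ g ω) :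
    avc d x y f ≤ avc d x y g := by
  have h1 := avc_nonneg x y (fun ω => g ω + (-1) * f ω) (fun ω => by linarith [h ω])
  rw [avc_add x y g (fun ω => (-1) * f ω), avc_smul] at h1
  linarith

theorem avc_abs_le {d : ℕ} (hOB : P_OB) (x y : ℕ) (hx : 0 < x) (f : (Fin (d + 2) → ℤ) → ℝ) (C : ℝ)
    (hC : 0 ≤ C) (hf : ∀ ω, |f ω| ≤ C) : |avc d x y f| ≤ C := by
  have h0 : avc d x y (fun _ => C) ≤ C := by
    have h1 := avc_smul (d := d) x y C (fun _ => 1)
    simp only [mul_one] at h1
    rw [h1]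
    exact mul_le_of_le_one_right hC (avc_one_le hOB x y hx)
  rw [abs_le]
  constructor
  · have h1 := avc_mono x y (fun _ => (-1) * C) f (fun ω => by linarith [(abs_le.1 (hf ω)).1])
    rw [avc_smul x y (-1) (fun _ => C)] at h1
    linarith
  · exact (avc_mono x y f (fun _ => C) (fun ω => (abs_le.1 (hf ω)).2)).trans h0

theorem pf_UM (hOB : P_OB) (hUA : P_UA) : P_UM := by
  intro d x y hx hlog
  classical
  set F : Filter ℕ := (Filter.hyperfilter ℕ : Filter ℕ) with hF
  have : F.NeBot := by rw [hF]; infer_instance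
  have hFle : F ≤ atTop := hyp_le
  -- the limits
  have hlim : ∀ f : (Fin (d + 2) → ℤ) → ℝ, Bdd f →
      Tendsto (fun j => avc d (x j) (y j) f) F (𝓝 (limUnder F (fun j => avc d (x j) (y j) f))) := by
    intro f hf
    obtain ⟨C, hC⟩ := hf
    refine tendsto_nhds_limUnder ?_
    have hC0 : 0 ≤ C := (abs_nonneg _).trans (hC 0)
    exact exists_lim _ C fun j => avc_abs_le hOB (x j) (y j) (hx j) f C hC0 hC
  let E : ((Fin (d + 2) → ℤ) → ℝ) → ℝ := fun f => limUnder F (fun j => avc d (x j) (y j) f)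
  have hE : ∀ f, Bdd f → Tendsto (fun j => avc d (x j) (y j) f) F (𝓝 (E f)) := hlim
  have hBadd : ∀ f g : (Fin (d + 2) → ℤ) → ℝ, Bdd f → Bdd g → Bdd (fun ω => f ω + g ω) := by
    rintro f g ⟨C, hC⟩ ⟨D, hD⟩
    exact ⟨C + D, fun ω => (abs_add_le _ _).trans (add_le_add (hC ω) (hD ω))⟩
  have hBsmul : ∀ (c : ℝ) (f : (Fin (d + 2) → ℤ) → ℝ), Bdd f → Bdd (fun ω => c * f ω) := by
    rintro c f ⟨C, hC⟩
    refine ⟨|c| * C, fun ω => ?_⟩
    rw [abs_mul]
    exact mul_le_mul_of_nonneg_left (hC ω) (abs_nonneg _)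
  have hBshift : ∀ (v : Fin (d + 2) → ℤ) (f : (Fin (d + 2) → ℤ) → ℝ), Bdd f →
      Bdd (fun ω => f (ω + v)) := by
    rintro v f ⟨C, hC⟩
    exact ⟨C, fun ω => hC _⟩
  have hBone : Bdd (fun _ : Fin (d + 2) → ℤ => (1 : ℝ)) := ⟨1, fun _ => by simp⟩
  let M : Mean (d + 2) :=
    { E := E
      add := by
        intro f g hf hg
        refine tendsto_nhds_unique (hE _ (hBadd f g hf hg)) ?_
        refine ((hE f hf).add (hE g hg)).congr fun j => ?_
        exact (avc_add _ _ f g).symm
      smul := by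
        intro c f hf
        refine tendsto_nhds_unique (hE _ (hBsmul c f hf)) ?_
        refine ((hE f hf).const_mul c).congr fun j => ?_
        exact (avc_smul _ _ c f).symm
      nonneg := by
        intro f hf h0
        exact ge_of_tendsto' (hE f hf) fun j => avc_nonneg _ _ f h0
      one := by
        refine tendsto_nhds_unique (hE _ hBone) ?_
        refine Tendsto.congr' ?_ tendsto_const_nhds
        have h2 : ∀ᶠ j in atTop, (1 : ℝ) ≤ Real.log ((y j : ℝ) / x j) :=
          hlog.eventually_ge_atTop 1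
        refine hFle ?_
        filter_upwards [h2] with j hj2
        rw [avc_one_eq hOB _ _ (hx j)]
        symm
        refine div_self ?_
        have hxy : x j ≤ y j := by
          by_contra hcon
          push Not at hcon
          have hx0 : (0 : ℝ) < x j := by exact_mod_cast hx j
          have h3 : ((y j : ℝ) / x j) ≤ 1 := by
            rw [div_le_one hx0]
            exact_mod_cast hcon.le
          have h4 : Real.log ((y j : ℝ) / x j) ≤ 0 := Real.log_nonpos (by positivity) h3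
          linarith
        refine (Finset.sum_pos (fun N hN => ?_) ⟨x j, Finset.mem_Icc.2 ⟨le_refl _, hxy⟩⟩).ne'
        have hN1 : 0 < N := lt_of_lt_of_le (hx j) (Finset.mem_Icc.1 hN).1
        have hN2 : (0 : ℝ) < N := by exact_mod_cast hN1
        positivity
      shift := by
        intro v f hf
        have h1 := (hUA d x y hx hlog v f hf).mono_left hFle
        have h2 := (hE f hf)
        have h3 := h1.add h2
        rw [zero_add] at h3
        refine tendsto_nhds_unique (hE _ (hBshift v f hf)) ?_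
        refine h3.congr fun j => ?_
        ring }
  refine ⟨M, fun f ρ hf hρ => ?_⟩
  exact ge_of_tendsto (hE f hf) (hFle hρ)

end Pool.Agent.H72.DPD
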